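import Pool.Agent.Helper92.TN.StN

/-!
# Project T3K, module BES: absolute convergence in weight at least four
-/

set_option autoImplicit false

open Pool.Agent.Helper14.CV (G0 Homog EqC act StFar)
open Pool.Agent.Helper28.WK
open Pool.Agent.Helper14.WK
open Pool.Agent.Helper28.LV
open Pool.Agent.Helper76.TG
open Pool.Agent.Helper28.TK
open Pool.Agent.Helper76.TX (Sg)

namespace Pool.Agent.Helper38.TN

open Pool.Agent.Helper92.TN MeasureTheory Filter AddCircle

private instance fact1 : Fact ((0 : ℝ) < 1) := ⟨one_pos⟩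

/-- Bessel's inequality for an absolutely convergent Fourier series. -/
private theorem bessel (b : ℕ → ℂ) (hb : Summable fun m => ‖b m‖) (K : ℝ) (hK : 0 ≤ K)
    (h : ∀ x : ℝ, ‖∑' m : ℕ, b m * Complex.exp (2 * Real.pi * Complex.I * m * x)‖ ≤ K) (X : ℕ) :
    ∑ m ∈ Finset.range X, ‖b m‖ ^ 2 ≤ K ^ 2 := by
  have hs : Summable fun m : ℕ => b m • (fourier (m : ℤ) : C(AddCircle (1 : ℝ), ℂ)) := by
    refine Summable.of_norm ?_
    have e : ∀ m : ℕ, ‖b m • (fourier (m : ℤ) : C(AddCircle (1 : ℝ), ℂ))‖ = ‖b m‖ := by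
      intro m
      rw [norm_smul, fourier_norm, mul_one]
    simpa only [e] using hb
  set G : C(AddCircle (1 : ℝ), ℂ) := ∑' m : ℕ, b m • (fourier (m : ℤ) : C(AddCircle (1 : ℝ), ℂ))
    with hG
  have hsum : HasSum (fun m : ℕ => b m • (fourier (m : ℤ) : C(AddCircle (1 : ℝ), ℂ))) G :=
    hs.hasSum
  -- the sup norm
  have hGn : ‖G‖ ≤ K := by
    rw [ContinuousMap.norm_le _ hK]
    intro x
    induction x using QuotientAddGroup.induction_on with
    | H t =>
      have h1 : G ((t : ℝ) : AddCircle (1 : ℝ)) =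
          ∑' m : ℕ, b m * Complex.exp (2 * Real.pi * Complex.I * m * t) := by
        have h2 := (ContinuousMap.hasSum_apply hsum ((t : ℝ) : AddCircle (1 : ℝ))).tsum_eq
        rw [← h2]
        refine tsum_congr fun m => ?_
        rw [ContinuousMap.smul_apply, fourier_coe_apply, smul_eq_mul]
        push_cast
        rw [div_one]
      have := h t
      rw [← h1] at this
      exact this
  -- in the Hilbert space
  set L := (ContinuousMap.toLp (E := ℂ) 2 (haarAddCircle (T := (1 : ℝ))) ℂ) with hL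
  have hLn : ‖L G‖ ≤ K := by
    refine (L.le_opNorm G).trans ?_
    have h1 : ‖L‖ ≤ 1 := by
      have := ContinuousMap.toLp_norm_le (E := ℂ) (p := 2) (μ := haarAddCircle (T := (1 : ℝ)))
        (𝕜 := ℂ)
      simpa [measureUnivNNReal] using this
    calc ‖L‖ * ‖G‖ ≤ 1 * K := mul_le_mul h1 hGn (norm_nonneg _) zero_le_one
      _ = K := one_mul K
  have hLs : HasSum (fun m : ℕ => b m • fourierLp (T := (1 : ℝ)) 2 (m : ℤ)) (L G) := by
    have := L.hasSum hsum
    simpa only [map_smul] using this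
  have ho := orthonormal_fourier (T := (1 : ℝ))
  have hin : ∀ j : ℕ, inner ℂ (fourierLp (T := (1 : ℝ)) 2 (j : ℤ)) (L G) = b j := by
    intro j
    have h1 := (innerSL ℂ (fourierLp (T := (1 : ℝ)) 2 (j : ℤ))).hasSum hLs
    simp only [innerSL_apply_apply, inner_smul_right] at h1
    have h2 : ∀ m : ℕ, b m * inner ℂ (fourierLp (T := (1 : ℝ)) 2 (j : ℤ))
        (fourierLp (T := (1 : ℝ)) 2 (m : ℤ)) = if m = j then b j else 0 := by
      intro m
      have h3 := orthonormal_iff_ite.1 ho (j : ℤ) (m : ℤ)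
      rw [h3]
      by_cases hm : m = j
      · subst hm
        simp
      · have : ¬ ((j : ℤ) = m) := fun h => hm (by exact_mod_cast h.symm)
        simp [this, hm]
    simp only [h2] at h1
    exact h1.unique (hasSum_ite_eq j (b j))
  have hB := (ho.comp (fun m : ℕ => (m : ℤ)) Nat.cast_injective).sum_inner_products_le
    (x := L G) (s := Finset.range X)
  simp only [Function.comp, hin] at hB
  exact hB.trans (pow_le_pow_left₀ (norm_nonneg _) hLn 2)

private theorem fz_apply {N : ℕ} {k : ℤ} (f : CuspForm (G0 N) k) {x y : ℝ} (hy : 0 < y) :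
    ∃ τ : UpperHalfPlane, τ.im = y ∧ fzK f (x + y * Complex.I) = f τ := by
  have him : (0 : ℝ) < ((x : ℂ) + y * Complex.I).im := by simpa using hy
  refine ⟨⟨(x : ℂ) + y * Complex.I, him⟩, ?_, ?_⟩
  · show ((x : ℂ) + y * Complex.I).im = y
    simp
  · unfold fzK
    rw [UpperHalfPlane.ofComplex_apply_of_im_pos him]

/-- The mean square of the coefficients. -/
private theorem mean (hK : SKA1) {N : ℕ} [NeZero N] (A : ℕ) (f : CuspForm (G0 N) (2 * A + 2)) :
    ∃ C : ℝ, 0 ≤ C ∧ ∀ X : ℕ, 1 ≤ X →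
      ∑ m ∈ Finset.range (X + 1), ‖fcK f m‖ ^ 2 ≤ C * (X : ℝ) ^ (2 * A + 2) := by
  obtain ⟨C, hC⟩ := CuspFormClass.exists_bound f
  refine ⟨Real.exp (4 * Real.pi) * |C| ^ 2, by positivity, fun X hX => ?_⟩
  have hX' : (0 : ℝ) < X := by exact_mod_cast hX
  set y : ℝ := 1 / X with hy
  have hyp : 0 < y := by positivity
  set b : ℕ → ℂ := fun m => fcK f m * Complex.exp (2 * Real.pi * Complex.I * m * (y * Complex.I))
    with hb
  have hz : 0 < (((0 : ℝ) : ℂ) + y * Complex.I).im := by simpa using hyp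
  have hbs : Summable fun m => ‖b m‖ := by
    have h1 := (hK N ‹_› _ f (((0 : ℝ) : ℂ) + y * Complex.I) hz).2.1 0
    simp only [pow_zero, div_one, Complex.ofReal_zero, zero_add] at h1
    exact h1.norm
  have hterm : ∀ (m : ℕ) (x : ℝ), fcK f m * Complex.exp (2 * Real.pi * Complex.I * m *
      (x + y * Complex.I)) = b m * Complex.exp (2 * Real.pi * Complex.I * m * x) := by
    intro m x
    rw [hb]
    simp only
    rw [mul_assoc (fcK f m), ← Complex.exp_add]
    congr 2
    ring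
  have hbound : ∀ x : ℝ, ‖∑' m : ℕ, b m * Complex.exp (2 * Real.pi * Complex.I * m * x)‖ ≤
      |C| * (X : ℝ) ^ (A + 1) := by
    intro x
    have hz' : 0 < ((x : ℂ) + y * Complex.I).im := by simpa using hyp
    have h1 := (hK N ‹_› _ f ((x : ℂ) + y * Complex.I) hz').2.2.1
    simp only [hterm] at h1
    rw [h1.tsum_eq]
    obtain ⟨τ, hτ, hfτ⟩ := fz_apply f (x := x) hyp
    rw [hfτ]
    have h2 := hC τ
    rw [hτ] at h2
    have e1 : (((2 * (A : ℤ) + 2 : ℤ) : ℝ) / 2) = ((A + 1 : ℕ) : ℝ) := by push_cast; ring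
    rw [e1, Real.rpow_natCast] at h2
    refine h2.trans ((div_le_div_of_nonneg_right (le_abs_self C) (by positivity)).trans (le_of_eq ?_))
    rw [hy, one_div, inv_pow, div_inv_eq_mul]
  have hBes := bessel b hbs (|C| * (X : ℝ) ^ (A + 1)) (by positivity) hbound (X + 1)
  have hnb : ∀ m : ℕ, ‖b m‖ = ‖fcK f m‖ * Real.exp (-(2 * Real.pi * m * y)) := by
    intro m
    rw [hb]
    simp only
    rw [norm_mul, Complex.norm_exp]
    congr 2
    have : (2 * Real.pi * Complex.I * m * (y * Complex.I) : ℂ) =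
        ((-(2 * Real.pi * m * y) : ℝ) : ℂ) := by
      have hI : Complex.I * Complex.I = -1 := Complex.I_mul_I
      push_cast
      linear_combination (2 * Real.pi * m * y) * hI
    rw [this, Complex.ofReal_re]
  have hle : ∀ m ∈ Finset.range (X + 1), ‖fcK f m‖ ^ 2 ≤ Real.exp (4 * Real.pi) * ‖b m‖ ^ 2 := by
    intro m hm
    have hmX : (m : ℝ) ≤ X := by
      have := Finset.mem_range.1 hm
      exact_mod_cast Nat.lt_succ_iff.1 this
    rw [hnb, mul_pow, ← Real.exp_nat_mul]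
    have h1 : (1 : ℝ) ≤ Real.exp (4 * Real.pi) *
        Real.exp (((2 : ℕ) : ℝ) * -(2 * Real.pi * m * y)) := by
      rw [← Real.exp_add]
      apply Real.one_le_exp
      have h2 : (m : ℝ) * y ≤ 1 := by
        rw [hy, mul_one_div]
        exact (div_le_one hX').2 hmX
      have := Real.pi_pos
      push_cast
      nlinarith
    calc ‖fcK f m‖ ^ 2 = ‖fcK f m‖ ^ 2 * 1 := (mul_one _).symm
      _ ≤ ‖fcK f m‖ ^ 2 * (Real.exp (4 * Real.pi) *
          Real.exp (((2 : ℕ) : ℝ) * -(2 * Real.pi * m * y))) :=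
          mul_le_mul_of_nonneg_left h1 (by positivity)
      _ = _ := by ring
  calc ∑ m ∈ Finset.range (X + 1), ‖fcK f m‖ ^ 2
      ≤ ∑ m ∈ Finset.range (X + 1), Real.exp (4 * Real.pi) * ‖b m‖ ^ 2 := Finset.sum_le_sum hle
    _ = Real.exp (4 * Real.pi) * ∑ m ∈ Finset.range (X + 1), ‖b m‖ ^ 2 := by
        rw [Finset.mul_sum]
    _ ≤ Real.exp (4 * Real.pi) * (|C| * (X : ℝ) ^ (A + 1)) ^ 2 :=
        mul_le_mul_of_nonneg_left hBes (Real.exp_pos _).le
    _ = _ := by ring

/-- Module BES. -/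
theorem hBES : StBES := by
  intro hK N hN A f hA
  obtain ⟨C, hC0, hC⟩ := mean hK A f
  have hO : (fun n : ℕ => ∑ k ∈ Finset.Icc 1 n, ‖fcK f k‖) =O[atTop]
      fun n : ℕ => (n : ℝ) ^ ((A : ℝ) + 3 / 2) := by
    refine Asymptotics.IsBigO.of_bound (Real.sqrt C) ?_
    filter_upwards [eventually_ge_atTop 1] with n hn
    have hn' : (0 : ℝ) < n := by exact_mod_cast hn
    have h0 : 0 ≤ ∑ k ∈ Finset.Icc 1 n, ‖fcK f k‖ := Finset.sum_nonneg fun _ _ => norm_nonneg _
    rw [Real.norm_of_nonneg h0, Real.norm_of_nonneg (by positivity)]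
    have h1 : (∑ k ∈ Finset.Icc 1 n, ‖fcK f k‖) ^ 2 ≤ n * ∑ k ∈ Finset.Icc 1 n, ‖fcK f k‖ ^ 2 := by
      have := sq_sum_le_card_mul_sum_sq (s := Finset.Icc 1 n) (f := fun k => ‖fcK f k‖)
      simpa using this
    have h2 : ∑ k ∈ Finset.Icc 1 n, ‖fcK f k‖ ^ 2 ≤ C * (n : ℝ) ^ (2 * A + 2) := by
      refine le_trans (Finset.sum_le_sum_of_subset_of_nonneg ?_ fun _ _ _ => by positivity) (hC n hn)
      intro k hk
      rw [Finset.mem_Icc] at hk
      rw [Finset.mem_range]
      omega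
    have h3 : (Real.sqrt C * (n : ℝ) ^ ((A : ℝ) + 3 / 2)) ^ 2 = n * (C * (n : ℝ) ^ (2 * A + 2)) := by
      rw [mul_pow, Real.sq_sqrt hC0, ← Real.rpow_natCast, ← Real.rpow_mul hn'.le]
      have e : ((A : ℝ) + 3 / 2) * ((2 : ℕ) : ℝ) = ((2 * A + 2 + 1 : ℕ) : ℝ) := by push_cast; ring
      rw [e, Real.rpow_natCast, pow_succ]
      ring
    have h4 : (∑ k ∈ Finset.Icc 1 n, ‖fcK f k‖) ^ 2 ≤
        (Real.sqrt C * (n : ℝ) ^ ((A : ℝ) + 3 / 2)) ^ 2 := by
      rw [h3]
      exact h1.trans (mul_le_mul_of_nonneg_left h2 hn'.le)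
    exact le_of_sq_le_sq h4 (by positivity)
  have hA' : (1 : ℝ) ≤ A := by exact_mod_cast hA
  have hs := LSeriesSummable_of_sum_norm_bigO (f := fun m => fcK f m) (s := ((2 * A + 1 : ℕ) : ℂ))
    hO (by positivity) (by
      rw [Complex.natCast_re]
      push_cast
      linarith)
  have h1 := hs.norm
  refine h1.congr fun m => ?_
  rcases Nat.eq_zero_or_pos m with rfl | hm
  · simp [LSeries.term]
  · rw [LSeries.term_of_ne_zero hm.ne', norm_div, Complex.cpow_natCast, norm_pow,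
      Complex.norm_natCast]

end Pool.Agent.Helper38.TN
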